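import Mathlib
import Pool.Agent.TH160.Defs
import Pool.Agent.TH160.Fam
import Pool.Agent.TH160.Fin2
set_option autoImplicit false
namespace Pool.Agent.Results.MP_06906d_ag.NotLowerSemicontinuous
open TH160

/-- The degree of irrationality is not lower semicontinuous in smooth families of surfaces.
In the explicit family `X_b` of smooth surfaces of bidegree `(3, 4)` in `P² × P¹`, where
`b` runs through `T = ℂ ∖ {0, ±1, ±2}`, all values are `2` or `3`, the value `2` is taken for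
infinitely many `b`, the value `3` is taken for `b = 1 / 5`, and therefore the set of all `b` in
`T` with `irr X_b ≤ 2` is not Zariski closed in `T`. -/
theorem result : ∃ 𝓧 : SmoothFamily, 𝓧.F = famEq ∧
    𝓧.T = {b : ℂ | b ≠ 0 ∧ b ^ 2 ≠ 1 ∧ b ^ 2 ≠ 4} ∧
    (∀ b ∈ 𝓧.T, ∃ (L : Type) (_ : Field L) (_ : Algebra ℂ L) (x : Fin 3 ⊕ Fin 2 → L),
      IsFunctionField (fiber 𝓧.F b) L x) ∧
    ∀ (L : ℂ → Type) [∀ b, Field (L b)] [∀ b, Algebra ℂ (L b)]
      (x : (b : ℂ) → Fin 3 ⊕ Fin 2 → L b),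
      (∀ b ∈ 𝓧.T, IsFunctionField (fiber 𝓧.F b) (L b) (x b)) →
      (∀ b ∈ 𝓧.T, irr (L b) = 2 ∨ irr (L b) = 3) ∧
      {b | b ∈ 𝓧.T ∧ irr (L b) = 2}.Infinite ∧
      ((1 / 5 : ℂ) ∈ 𝓧.T ∧ irr (L (1 / 5)) = 3) ∧
      ¬ IsClosedIn 𝓧.T {b | b ∈ 𝓧.T ∧ irr (L b) ≤ 2} := by
  have hfin : (Tsetᶜ : Set ℂ).Finite := by
    have : (Tsetᶜ : Set ℂ) ⊆ {0, 1, -1, 2, -2} := by
      intro b hb
      simp only [Tset, Set.mem_compl_iff, Set.mem_ofPred_eq, not_and_or, not_not] at hb
      simp only [Set.mem_insert_iff, Set.mem_singleton_iff]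
      rcases hb with h | h | h
      · exact Or.inl h
      · have h2 : (b - 1) * (b + 1) = 0 := by linear_combination h
        rcases mul_eq_zero.1 h2 with h3 | h3
        · exact Or.inr (Or.inl (sub_eq_zero.1 h3))
        · exact Or.inr (Or.inr (Or.inl (eq_neg_of_add_eq_zero_left h3)))
      · have h2 : (b - 2) * (b + 2) = 0 := by linear_combination h
        rcases mul_eq_zero.1 h2 with h3 | h3
        · exact Or.inr (Or.inr (Or.inr (Or.inl (sub_eq_zero.1 h3))))
        · exact Or.inr (Or.inr (Or.inr (Or.inr (eq_neg_of_add_eq_zero_left h3))))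
    exact Set.Finite.subset (by simp) this
  refine ⟨⟨Tset, famEq, hfin, ⟨_, homog_famEq⟩, ?_, ?_⟩, rfl, rfl, ?_, ?_⟩
  · intro b hb
    rw [fiber_famEq]
    exact Pool.Agent.TH553.J335.stmIrr b hb
  · intro b hb
    rw [fiber_famEq]
    exact Pool.Agent.TH553.J336.stmSmooth b hb
  · intro b hb
    change ∃ (L : Type) (_ : Field L) (_ : Algebra ℂ L) (x : Fin 3 ⊕ Fin 2 → L),
      IsFunctionField (fiber famEq b) L x
    rw [fiber_famEq]
    exact Pool.Agent.TH182.J337.stmEx b (Pool.Agent.TH553.J335.stmIrr b hb)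
  · intro L _ _ x hx
    change ∀ b ∈ Tset, IsFunctionField (fiber famEq b) (L b) (x b) at hx
    have hval : ∀ b ∈ Tset, (Solv b → irr (L b) = 2) ∧ (¬ Solv b → irr (L b) = 3) := by
      intro b hb
      have h := hx b hb
      rw [fiber_famEq] at h
      exact irr_val b hb (L b) (x b) h
    have h23 : ∀ b ∈ Tset, irr (L b) = 2 ∨ irr (L b) = 3 := by
      intro b hb
      by_cases hs : Solv b
      · exact Or.inl ((hval b hb).1 hs)
      · exact Or.inr ((hval b hb).2 hs)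
    have hinf : {b | b ∈ Tset ∧ irr (L b) = 2}.Infinite :=
      infinite_solv.mono fun b hb => ⟨hb.1, (hval b hb.1).1 hb.2⟩
    have h5 : irr (L (1 / 5)) = 3 := (hval _ fifth_mem).2 fifth_not
    refine ⟨h23, hinf, ⟨fifth_mem, h5⟩, ?_⟩
    rintro ⟨P, hP⟩
    change {b | b ∈ Tset ∧ irr (L b) ≤ 2} = {b | b ∈ Tset ∧ ∀ p ∈ P, p.eval b = 0} at hP
    have hzero : ∀ p ∈ P, p = 0 := by
      intro p hp
      by_contra hp0
      apply hinf
      have hfinr : {b : ℂ | p.IsRoot b}.Finite := by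
        refine (p.roots.toFinset.finite_toSet).subset ?_
        intro b hb
        simp only [Finset.mem_coe, Multiset.mem_toFinset, Polynomial.mem_roots hp0]
        exact hb
      refine hfinr.subset ?_
      rintro b ⟨hb, h2⟩
      have hb' : b ∈ {b | b ∈ Tset ∧ irr (L b) ≤ 2} := ⟨hb, h2.le⟩
      rw [hP] at hb'
      exact hb'.2 p hp
    have h5' : (1 / 5 : ℂ) ∈ {b | b ∈ Tset ∧ irr (L b) ≤ 2} := by
      rw [hP]
      exact ⟨fifth_mem, fun p hp => by rw [hzero p hp, Polynomial.eval_zero]⟩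
    have h6 := h5'.2
    rw [h5] at h6
    omega

end Pool.Agent.Results.MP_06906d_ag.NotLowerSemicontinuous
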